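import Pool.Agent.helper66.SL.SpecC

/-! # sl:EXO: the exceptional case of six elements -/

set_option autoImplicit false

namespace Pool.Agent.helper66.SL

open Pool.Agent.helper52.FC

theorem EXO_tri (hTRI : TRI) {E : Type} [Finite E] {L : Set (E → SignType)} (hR : R3 L)
    {S p : E → SignType} (hS : IsTope L S) {a b : E} (hab : a ≠ b) (ha : Wall L S a) (hb : Wall L S b)
    (hp : Cork L p 2) (hpS : Le p S) (hpa : p a = 0) (hpb : p b = 0) :
    ∃ wa wb : E → SignType, Cork L wa 2 ∧ Cork L wb 2 ∧ Le wa S ∧ Le wb S ∧ wa a = 0 ∧ wa b ≠ 0 ∧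
      wb b = 0 ∧ wb a ≠ 0 ∧ ∀ s, Cork L s 2 → Le s S → s = p ∨ s = wa ∨ s = wb := by
  obtain ⟨i, j, k, p', q', r', hij, hik, hjk, hw, c1, c2, c3, l1, l2, l3, p1, p2, p3, q1, q2, q3, r1, r2, r3, hall⟩ :=
    hTRI E L hR S hS
  have ha' := (hw a).1 ha
  have hb' := (hw b).1 hb
  rcases hall p hp hpS with h | h | h
  · subst h
    rcases ha' with h1 | h1 | h1
    · subst h1
      exact absurd hpa p1
    · rcases hb' with h2 | h2 | h2
      · subst h2
        exact absurd hpb p1
      · exact absurd (h1.trans h2.symm) hab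
      · subst h1
        subst h2
        exact ⟨r', q', c3, c2, l3, l2, r2, r3, q3, q2, fun s h1 h2 => by
          rcases hall s h1 h2 with h | h | h
          · exact Or.inl h
          · exact Or.inr (Or.inr h)
          · exact Or.inr (Or.inl h)⟩
    · rcases hb' with h2 | h2 | h2
      · subst h2
        exact absurd hpb p1
      · subst h1
        subst h2
        exact ⟨q', r', c2, c3, l2, l3, q3, q2, r2, r3, fun s h1 h2 => by
          rcases hall s h1 h2 with h | h | h
          · exact Or.inl h
          · exact Or.inr (Or.inl h)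
          · exact Or.inr (Or.inr h)⟩
      · exact absurd (h1.trans h2.symm) hab
  · subst h
    rcases ha' with h1 | h1 | h1
    · rcases hb' with h2 | h2 | h2
      · exact absurd (h1.trans h2.symm) hab
      · subst h2
        exact absurd hpb q2
      · subst h1
        subst h2
        exact ⟨r', p', c3, c1, l3, l1, r1, r3, p3, p1, fun s h1 h2 => by
          rcases hall s h1 h2 with h | h | h
          · exact Or.inr (Or.inr h)
          · exact Or.inl h
          · exact Or.inr (Or.inl h)⟩
    · subst h1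
      exact absurd hpa q2
    · rcases hb' with h2 | h2 | h2
      · subst h1
        subst h2
        exact ⟨p', r', c1, c3, l1, l3, p3, p1, r1, r3, fun s h1 h2 => by
          rcases hall s h1 h2 with h | h | h
          · exact Or.inr (Or.inl h)
          · exact Or.inl h
          · exact Or.inr (Or.inr h)⟩
      · subst h2
        exact absurd hpb q2
      · exact absurd (h1.trans h2.symm) hab
  · subst h
    rcases ha' with h1 | h1 | h1
    · rcases hb' with h2 | h2 | h2
      · exact absurd (h1.trans h2.symm) hab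
      · subst h1
        subst h2
        exact ⟨q', p', c2, c1, l2, l1, q1, q2, p2, p1, fun s h1 h2 => by
          rcases hall s h1 h2 with h | h | h
          · exact Or.inr (Or.inr h)
          · exact Or.inr (Or.inl h)
          · exact Or.inl h⟩
      · subst h2
        exact absurd hpb r3
    · rcases hb' with h2 | h2 | h2
      · subst h1
        subst h2
        exact ⟨p', q', c1, c2, l1, l2, p2, p1, q1, q2, fun s h1 h2 => by
          rcases hall s h1 h2 with h | h | h
          · exact Or.inr (Or.inl h)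
          · exact Or.inr (Or.inr h)
          · exact Or.inl h⟩
      · exact absurd (h1.trans h2.symm) hab
      · subst h2
        exact absurd hpb r3
    · subst h1
      exact absurd hpa r3

theorem EXO_opp {E : Type} [Finite E] {L : Set (E → SignType)} (hR : R3 L) {S p : E → SignType}
    (hS : IsTope L S) (hp : p ∈ L) : IsTope L (cmp p fun e => -S e) := by
  have hO := hR.good.om
  have hs := hR.good.simple
  refine tope_of (hO.comp p hp _ (hO.neg S hS.1)) fun e => ?_
  by_cases h : p e = 0
  · rw [cmp_pos h]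
    simpa using tope_supp hO hs hS e
  · rw [cmp_neg h]
    exact h

theorem EXO_wall {E : Type} [Finite E] {L : Set (E → SignType)} (hR : R3 L) {S p : E → SignType}
    (hp : p ∈ L) {a : E} (ha : Wall L S a) (hpa : p a = 0) : Wall L (cmp p fun e => -S e) a := by
  have e : fl (cmp p fun e => -S e) a = cmp p fun e => -(fl S a) e := by
    funext g
    by_cases hg : g = a
    · subst hg
      have h1 : fl (cmp p fun e => -S e) g g = -(cmp p (fun e => -S e) g) := if_pos rfl
      have h2 : fl S g g = -S g := if_pos rfl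
      rw [h1, cmp_pos hpa, cmp_pos hpa, h2]
    · have h1 : fl (cmp p fun e => -S e) a g = cmp p (fun e => -S e) g := if_neg hg
      have h2 : fl S a g = S g := if_neg hg
      rw [h1]
      by_cases h3 : p g = 0
      · rw [cmp_pos h3, cmp_pos h3, h2]
      · rw [cmp_neg h3, cmp_neg h3]
  unfold Wall
  rw [e]
  exact EXO_opp hR ha hp

theorem EXO_proof (hSZZ : SZZ) (hTRI : TRI) (hNAD : NAD) (hLO6 : LO6) : EXO := by
  intro E _ L hR h4 p hp hAB S hS hpS a b hab ha hb hpa hpb
  obtain ⟨wa, wb, ca, cb, la, lb, wa1, wa2, wb1, wb2, hall⟩ := EXO_tri hTRI hR hS hab ha hb hp.1 hpS hpa hpb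
  have hS' := EXO_opp hR hS hp.1.1
  have ha' := EXO_wall hR hp.1.1 ha hpa
  have hb' := EXO_wall hR hp.1.1 hb hpb
  have hpS' : Le p (cmp p fun e => -S e) := le_cmp p _
  have hSb : (cmp p fun e => -S e) b = -S b := cmp_pos hpb
  have hSa : (cmp p fun e => -S e) a = -S a := cmp_pos hpa
  obtain ⟨va, vb, da, db, ma, mb, va1, va2, vb1, vb2, _⟩ :=
    EXO_tri hTRI hR hS' hab ha' hb' hp.1 hpS' hpa hpb
  have hwab : wa ≠ wb := fun h => wa2 (by rw [h]; exact wb1)
  have hvab : va ≠ vb := fun h => va2 (by rw [h]; exact vb1)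
  have sz : ∀ w, Cork L w 2 → ¬ Vx L 3 w → Vx L 2 w := by
    intro w hw hn
    rcases (hSZZ E L hR.good hR.cl w hw).1 with h | h
    · exact ⟨hw, h⟩
    · exact absurd ⟨hw, h⟩ hn
  have tra : Tr L p S a ↔ Vx L 3 wa := by
    constructor
    · rintro ⟨q, hq, hqS, hqa, hqp⟩
      rcases hall q hq.1 hqS with h | h | h
      · exact absurd h hqp
      · rw [← h]
        exact hq
      · rw [h] at hqa
        exact absurd hqa wb2
    · intro h
      exact ⟨wa, h, la, wa1, fun h => wa2 (by rw [h]; exact hpb)⟩
  have trb : Tr L p S b ↔ Vx L 3 wb := by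
    constructor
    · rintro ⟨q, hq, hqS, hqb, hqp⟩
      rcases hall q hq.1 hqS with h | h | h
      · exact absurd h hqp
      · rw [h] at hqb
        exact absurd hqb wa2
      · rw [← h]
        exact hq
    · intro h
      exact ⟨wb, h, lb, wb1, fun h => wb2 (by rw [h]; exact hpa)⟩
  rw [tra, trb]
  have n1 : ¬ (¬ Vx L 3 wa ∧ ¬ Vx L 3 wb) := by
    rintro ⟨h1, h2⟩
    have := hNAD E L hR S wa wb hS (sz wa ca h1) (sz wb cb h2) hwab la lb
    omega
  have n2 : ¬ (Vx L 3 wa ∧ Vx L 3 wb) := by
    rintro ⟨h1, h2⟩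
    have hS0 : ∀ g, S g ≠ 0 := fun g => tope_supp hR.good.om hR.good.simple hS g
    have neq : ∀ (w v : E → SignType) (g : E), Le w S → Le v (cmp p fun e => -S e) → w g ≠ 0 → v g ≠ 0 →
        p g = 0 → w ≠ v := by
      intro w v g hw hv hw0 hv0 hpg h
      have e1 : w g = S g := (hw g).resolve_left hw0
      have e2 : v g = -S g := by
        rw [(hv g).resolve_left hv0]
        exact cmp_pos hpg
      rw [h, e2] at e1
      exact hS0 g (sneg e1.symm rfl)
    have hNa : Nb L a p wa := ⟨hp.1, ca, hpa, wa1, fun h => wa2 (by rw [← h]; exact hpb), S, hS, ha, hpS, la⟩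
    have hNb : Nb L b p wb := ⟨hp.1, cb, hpb, wb1, fun h => wb2 (by rw [← h]; exact hpa), S, hS, hb, hpS, lb⟩
    have hMa : Nb L a p va := ⟨hp.1, da, hpa, va1, fun h => va2 (by rw [← h]; exact hpb), _, hS', ha', hpS', ma⟩
    have hMb : Nb L b p vb := ⟨hp.1, db, hpb, vb1, fun h => vb2 (by rw [← h]; exact hpa), _, hS', hb', hpS', mb⟩
    have k1 := (hLO6 E L hR p a hp hpa (hAB a hpa).1 (hAB a hpa).2 wa va
      (neq wa va b la ma wa2 va2 hpb) hNa hMa).1 h1
    have k2 := (hLO6 E L hR p b hp hpb (hAB b hpb).1 (hAB b hpb).2 wb vb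
      (neq wb vb a lb mb wb2 vb2 hpa) hNb hMb).1 h2
    have := hNAD E L hR _ va vb hS' (sz va da k1) (sz vb db k2) hvab ma mb
    omega
  tauto

end Pool.Agent.helper66.SL
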