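import Pool.Agent.helper66.SL.SpecA

/-! # sl:PHI: a compatible family on the star of a covector of corank two -/

set_option autoImplicit false

namespace Pool.Agent.helper66.SL

open Pool.Agent.helper52.FC

theorem PHI_proof (hSTI : STI) : PHI := by
  intro E _ L F hG hCD Z hZ a hcomp
  obtain ⟨T0, hT0⟩ := exists_tope hG.om
  have hT : IsTope L (cmp Z T0) := tope_of (hG.om.comp Z hZ.1 T0 hT0.1) (fun e => by
    by_cases h : Z e = 0
    · rw [cmp_pos h]
      exact tope_supp hG.om hG.simple hT0 e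
    · rw [cmp_neg h]
      exact h)
  have hZT : Le Z (cmp Z T0) := le_cmp Z T0
  generalize cmp Z T0 = T at hT hZT
  obtain ⟨i, j, hij, hs⟩ := Set.ncard_eq_two.1 (hZ.2 T hT hZT)
  have hi : Wall L T i ∧ Z i = 0 := by
    have h1 : i ∈ {e | Wall L T e ∧ Z e = 0} := by
      rw [hs]
      exact Or.inl rfl
    exact h1
  have hj : Wall L T j ∧ Z j = 0 := by
    have h1 : j ∈ {e | Wall L T e ∧ Z e = 0} := by
      rw [hs]
      exact Or.inr rfl
    exact h1
  obtain ⟨f, hf, hfi, hfj⟩ := hCD.ext Z hZ T hT hZT i j hij hi.1 hj.1 hi.2 hj.2 (a T i) (a T j)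
  refine ⟨f, hf, ?_⟩
  intro S hS hZS
  refine hSTI E L hG.om hG.simple Z hZ.1 (fun S => ∀ g, Wall L S g → Z g = 0 → a S g = f g) T hT hZT ?_ ?_ S hS hZS
  · intro g hg hgZ
    have h1 : g ∈ ({i, j} : Set E) := by
      rw [← hs]
      exact ⟨hg, hgZ⟩
    rcases h1 with h1 | h1
    · rw [h1]
      exact hfi.symm
    · have h2 : g = j := h1
      rw [h2]
      exact hfj.symm
  · intro S hS hZS hQ e he hZe g hg hZg
    obtain ⟨_, hc⟩ := hcomp S hS hZS e he hZe
    obtain ⟨f', hf', h1, h2⟩ := hc Z hZ hZS hZe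
    obtain ⟨i', j', hij', hs'⟩ := Set.ncard_eq_two.1 (hZ.2 S hS hZS)
    have hi' : Wall L S i' ∧ Z i' = 0 := by
      have h3 : i' ∈ {e | Wall L S e ∧ Z e = 0} := by
        rw [hs']
        exact Or.inl rfl
      exact h3
    have hj' : Wall L S j' ∧ Z j' = 0 := by
      have h3 : j' ∈ {e | Wall L S e ∧ Z e = 0} := by
        rw [hs']
        exact Or.inr rfl
      exact h3
    have h3 := hCD.uniq Z hZ S hS hZS i' j' hij' hi'.1 hj'.1 hi'.2 hj'.2 (f - f') ((F Z).sub_mem hf hf')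
      (by rw [Pi.sub_apply, ← hQ i' hi'.1 hi'.2, h1 i' hi'.1 hi'.2, sub_self])
      (by rw [Pi.sub_apply, ← hQ j' hj'.1 hj'.2, h1 j' hj'.1 hj'.2, sub_self]) g hZg
    rw [Pi.sub_apply] at h3
    rw [h2 g hg hZg]
    linarith

end Pool.Agent.helper66.SL
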